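import Pool.Agent.Q41.SU.Stm2

set_option autoImplicit false
set_option linter.all false

namespace Pool.Agent.Q65.SU

open Finset Polynomial
open Pool.Agent.Q41.SU

universe u

/-- the coefficient matrix of the substitution -/
noncomputable def SM {F : Type*} [Field F] (a : ℕ) (m : Mb F) :
    Matrix (Fin (a + 1)) (Fin (a + 1)) F :=
  Matrix.of fun c' c => ((C m.γ * X + C m.δ) ^ (a - (c : ℕ)) *
    (C m.α * X + C m.β) ^ (c : ℕ)).coeff (c' : ℕ)

theorem SM_deg {F : Type*} [Field F] (a : ℕ) (m : Mb F) (c : Fin (a + 1)) :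
    ((C m.γ * X + C m.δ) ^ (a - (c : ℕ)) * (C m.α * X + C m.β) ^ (c : ℕ)).natDegree < a + 1 := by
  have h1 : (C m.γ * X + C m.δ).natDegree ≤ 1 := natDegree_linear_le
  have h2 : (C m.α * X + C m.β).natDegree ≤ 1 := natDegree_linear_le
  have h3 := natDegree_pow_le_of_le (a - (c : ℕ)) h1
  have h4 := natDegree_pow_le_of_le (c : ℕ) h2
  have h5 := natDegree_mul_le_of_le h3 h4
  have h6 := c.2
  omega

theorem SM_eval {F : Type*} [Field F] (a : ℕ) (m : Mb F) (x : F) (c : Fin (a + 1)) :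
    ∑ c' : Fin (a + 1), x ^ (c' : ℕ) * SM a m c' c =
      (m.γ * x + m.δ) ^ (a - (c : ℕ)) * (m.α * x + m.β) ^ (c : ℕ) := by
  have h := eval_eq_sum_range' (SM_deg a m c) x
  rw [eval_mul, eval_pow, eval_pow, eval_add, eval_add, eval_mul, eval_mul, eval_C, eval_C,
    eval_C, eval_C, eval_X] at h
  rw [h, Finset.sum_range]
  refine Finset.sum_congr rfl fun c' _ => ?_
  show _ * ((C m.γ * X + C m.δ) ^ (a - (c : ℕ)) * (C m.α * X + C m.β) ^ (c : ℕ)).coeff (c' : ℕ) = _
  rw [mul_comm]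

theorem pair_prod {M : Type*} [CommMonoid M] (n : ℕ) (g : Fin n → M) :
    ∏ i : Fin n, ∏ j ∈ Finset.Ioi i, (g i * g j) = ∏ i, g i ^ (n - 1) := by
  have h1 : ∏ i : Fin n, ∏ j ∈ Finset.Ioi i, (g i * g j) =
      (∏ i : Fin n, ∏ j ∈ Finset.Ioi i, g i) * ∏ i : Fin n, ∏ j ∈ Finset.Ioi i, g j := by
    rw [← Finset.prod_mul_distrib]
    exact Finset.prod_congr rfl fun i _ => Finset.prod_mul_distrib
  have h2 : ∏ i : Fin n, ∏ j ∈ Finset.Ioi i, g j = ∏ j : Fin n, ∏ i ∈ Finset.Iio j, g j := by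
    apply Finset.prod_comm'
    intro i j
    simp
  rw [h1, h2, ← Finset.prod_mul_distrib]
  refine Finset.prod_congr rfl fun i _ => ?_
  rw [Finset.prod_const, Finset.prod_const, ← pow_add]
  congr 1
  rw [Fin.card_Ioi, Fin.card_Iio]
  have := i.2
  omega

theorem pair_const {M : Type*} [CommMonoid M] (n : ℕ) (D : M) :
    ∏ i : Fin n, ∏ j ∈ Finset.Ioi i, D = D ^ (n * (n - 1) / 2) := by
  have h : ∀ i : Fin n, ∏ j ∈ Finset.Ioi i, D = D ^ (n - 1 - (i : ℕ)) := by
    intro i
    rw [Finset.prod_const, Fin.card_Ioi]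
  rw [Finset.prod_congr rfl fun i _ => h i, Finset.prod_pow_eq_pow_sum]
  congr 1
  rw [Fin.sum_univ_eq_sum_range (fun i => n - 1 - i), Finset.sum_range_reflect (fun i => i) n,
    Finset.sum_range_id]

theorem SM_det_inf {F : Type*} [Field F] [Infinite F] (a : ℕ) (m : Mb F)
    (hm : m.γ ≠ 0 ∨ m.δ ≠ 0) :
    (SM a m).det = m.det ^ (a * (a + 1) / 2) := by
  -- a + 1 different points at which the denominator is nonzero
  have hfin : {y : F | m.γ * y + m.δ = 0}.Finite := by
    by_cases hg : m.γ = 0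
    · have hd : m.δ ≠ 0 := hm.resolve_left (fun h => h hg)
      have : {y : F | m.γ * y + m.δ = 0} = ∅ := by
        ext y
        simp [hg, hd]
      rw [this]; exact Set.finite_empty
    · refine (Set.finite_singleton (-m.δ / m.γ)).subset ?_
      intro y hy
      have hy' : m.γ * y + m.δ = 0 := hy
      rw [Set.mem_singleton_iff, eq_div_iff hg]
      linear_combination hy'
  obtain ⟨T, hT, hTc⟩ := hfin.infinite_compl.exists_subset_card_eq (a + 1)
  set y : Fin (a + 1) → F := fun i => (T.equivFinOfCardEq hTc).symm i with hy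
  have hyinj : Function.Injective y := by
    intro i j hij
    exact (T.equivFinOfCardEq hTc).symm.injective (Subtype.ext hij)
  have hyne : ∀ i, m.γ * y i + m.δ ≠ 0 := by
    intro i h
    exact hT ((T.equivFinOfCardEq hTc).symm i).2 h
  set z : Fin (a + 1) → F := fun i => (m.α * y i + m.β) / (m.γ * y i + m.δ) with hz
  have h1 : Matrix.vandermonde y * SM a m =
      Matrix.diagonal (fun i => (m.γ * y i + m.δ) ^ a) * Matrix.vandermonde z := by
    ext i c
    rw [Matrix.mul_apply, Matrix.diagonal_mul]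
    simp only [Matrix.vandermonde_apply]
    rw [SM_eval, hz]
    simp only
    rw [div_pow]
    have hc : (c : ℕ) ≤ a := by have := c.2; omega
    have h2 : (m.γ * y i + m.δ) ^ a = (m.γ * y i + m.δ) ^ (a - (c : ℕ)) *
        (m.γ * y i + m.δ) ^ (c : ℕ) := by rw [← pow_add]; congr 1; omega
    rw [h2]
    have h3 := pow_ne_zero (c : ℕ) (hyne i)
    field_simp
  have h2 := congrArg Matrix.det h1
  rw [Matrix.det_mul, Matrix.det_mul, Matrix.det_diagonal, Matrix.det_vandermonde,
    Matrix.det_vandermonde] at h2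
  have h3 : ∀ i j : Fin (a + 1), (m.γ * y i + m.δ) * (m.γ * y j + m.δ) * (z j - z i) =
      m.det * (y j - y i) := by
    intro i j
    simp only [hz]
    have hi := hyne i
    have hj := hyne j
    unfold Mb.det
    field_simp
    ring
  have h4 : (∏ i, (m.γ * y i + m.δ) ^ a) * ∏ i, ∏ j ∈ Finset.Ioi i, (z j - z i) =
      m.det ^ (a * (a + 1) / 2) * ∏ i, ∏ j ∈ Finset.Ioi i, (y j - y i) := by
    have h5 := pair_prod (a + 1) (fun i => m.γ * y i + m.δ)
    have h6 := pair_const (a + 1) m.det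
    rw [Nat.add_sub_cancel] at h5 h6
    rw [← h5, mul_comm a (a + 1), ← h6, ← Finset.prod_mul_distrib, ← Finset.prod_mul_distrib]
    refine Finset.prod_congr rfl fun i _ => ?_
    rw [← Finset.prod_mul_distrib, ← Finset.prod_mul_distrib]
    exact Finset.prod_congr rfl fun j _ => h3 i j
  rw [h4, mul_comm (m.det ^ _)] at h2
  have h7 : (∏ i, ∏ j ∈ Finset.Ioi i, (y j - y i)) ≠ 0 := by
    refine Finset.prod_ne_zero_iff.mpr fun i _ => Finset.prod_ne_zero_iff.mpr fun j hj => ?_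
    rw [sub_ne_zero]
    intro h
    have := hyinj h
    rw [Finset.mem_Ioi] at hj
    exact absurd this hj.ne'
  exact mul_left_cancel₀ h7 h2

theorem SM_det {F : Type*} [Field F] (a : ℕ) (m : Mb F) (hm : m.γ ≠ 0 ∨ m.δ ≠ 0) :
    (SM a m).det = m.det ^ (a * (a + 1) / 2) := by
  set K := AlgebraicClosure F
  haveI : Infinite K := IsAlgClosed.instInfinite
  set φ := algebraMap F K with hφ
  have hφi : Function.Injective φ := φ.injective
  set m' : Mb K := ⟨φ m.α, φ m.β, φ m.γ, φ m.δ⟩ with hm'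
  have h1 := SM_det_inf a m' (by
    rcases hm with h | h
    · exact Or.inl ((map_ne_zero φ).mpr h)
    · exact Or.inr ((map_ne_zero φ).mpr h))
  apply hφi
  rw [map_pow, RingHom.map_det]
  have h2 : φ m.det = m'.det := by
    unfold Mb.det
    rw [map_sub, map_mul, map_mul]
  have h3 : φ.mapMatrix (SM a m) = SM a m' := by
    ext i j
    show φ ((((C m.γ * X + C m.δ) ^ (a - (j : ℕ)) * (C m.α * X + C m.β) ^ (j : ℕ))).coeff (i : ℕ)) =
      ((C (φ m.γ) * X + C (φ m.δ)) ^ (a - (j : ℕ)) *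
        (C (φ m.α) * X + C (φ m.β)) ^ (j : ℕ)).coeff (i : ℕ)
    rw [← coeff_map]
    congr 1
    simp
  rw [h2, h3, h1]

open Kronecker in
theorem cov1 {F : Type*} [Field F] (a b : ℕ) (m : Mb F) (x y : II a b → F)
    (hd : ∀ l, m.den (x l) ≠ 0) :
    bd a b (fun l => m.app (x l)) y * ∏ l, m.den (x l) ^ a =
      m.det ^ ((b + 1) * (a * (a + 1) / 2)) * bd a b x y := by
  have hm : m.γ ≠ 0 ∨ m.δ ≠ 0 := by
    by_contra h
    push Not at h
    apply hd (0, 0)
    unfold Mb.den
    rw [h.1, h.2]; ring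
  have h1 : Matrix.diagonal (fun l => m.den (x l) ^ a) *
      (Matrix.of fun l c : II a b => (m.app (x l)) ^ (c.1 : ℕ) * y l ^ (c.2 : ℕ)) =
      (Matrix.of fun l c : II a b => x l ^ (c.1 : ℕ) * y l ^ (c.2 : ℕ)) *
        (SM a m ⊗ₖ (1 : Matrix (Fin (b + 1)) (Fin (b + 1)) F)) := by
    ext l c
    rw [Matrix.diagonal_mul, Matrix.mul_apply]
    simp only [Matrix.of_apply, Matrix.kroneckerMap_apply]
    rw [Fintype.sum_prod_type]
    have h2 : ∀ c' : Fin (a + 1), ∑ c'' : Fin (b + 1), x l ^ (c' : ℕ) * y l ^ (c'' : ℕ) *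
        (SM a m c' c.1 * (1 : Matrix (Fin (b + 1)) (Fin (b + 1)) F) c'' c.2) =
        y l ^ (c.2 : ℕ) * (x l ^ (c' : ℕ) * SM a m c' c.1) := by
      intro c'
      rw [Finset.sum_eq_single c.2]
      · rw [Matrix.one_apply_eq]; ring
      · intro c'' _ hne
        rw [Matrix.one_apply_ne hne]; ring
      · intro h; exact absurd (mem_univ _) h
    rw [Finset.sum_congr rfl fun c' _ => h2 c', ← Finset.mul_sum, SM_eval]
    have hc : (c.1 : ℕ) ≤ a := by have := c.1.2; omega
    have hdl := hd l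
    unfold Mb.den at hdl
    unfold Mb.app Mb.den
    rw [div_pow]
    have h3 : (m.γ * x l + m.δ) ^ a = (m.γ * x l + m.δ) ^ (a - (c.1 : ℕ)) *
        (m.γ * x l + m.δ) ^ (c.1 : ℕ) := by rw [← pow_add]; congr 1; omega
    rw [h3]
    have h4 := pow_ne_zero (c.1 : ℕ) hdl
    field_simp
  have h2 := congrArg Matrix.det h1
  rw [Matrix.det_mul, Matrix.det_mul, Matrix.det_diagonal, Matrix.det_kronecker, Matrix.det_one,
    one_pow, mul_one, SM_det a m hm, Fintype.card_fin, ← pow_mul] at h2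
  unfold bd
  rw [mul_comm, h2, mul_comm, mul_comm (b + 1)]

theorem bd_swap {F : Type*} [Field F] (a b : ℕ) (x y : II a b → F) :
    bd b a (fun l => y l.swap) (fun l => x l.swap) = bd a b x y := by
  unfold bd
  rw [← Matrix.det_submatrix_equiv_self (Equiv.prodComm (Fin (b + 1)) (Fin (a + 1)))
    (Matrix.of fun l c : II a b => x l ^ (c.1 : ℕ) * y l ^ (c.2 : ℕ))]
  congr 1
  ext l c
  simp [mul_comm]

theorem cov : S_cov := by
  intro F _ a b m x y hd
  refine ⟨cov1 a b m x y hd, ?_⟩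
  have h := cov1 b a m (fun l : II b a => x l.swap) (fun l : II b a => y l.swap)
    (fun l => hd l.swap)
  rw [bd_swap a b y x, bd_swap a b y (fun l => m.app (x l))] at h
  rw [← h]
  congr 1
  exact (Equiv.prod_comp (Equiv.prodComm (Fin (b + 1)) (Fin (a + 1)))
    (fun l => m.den (x l) ^ b)).symm

end Pool.Agent.Q65.SU
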