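import Pool.Agent.Q41.SU.Stm2

set_option autoImplicit false
set_option linter.all false

namespace Pool.Agent.Q65.SU

open Finset Polynomial
open Pool.Agent.Q41.SU

universe u

theorem app_sub {F : Type*} [Field F] (m : Mb F) (x y : F) (hx : m.den x ≠ 0) (hy : m.den y ≠ 0) :
    m.app x - m.app y = m.det * (x - y) / (m.den x * m.den y) := by
  unfold Mb.app
  rw [div_sub_div _ _ hx hy]
  congr 1
  unfold Mb.den Mb.det
  ring

theorem sum_pair {J : Type*} [Fintype J] [DecidableEq J] (g : J → ℝ) :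
    ∑ l, ∑ j ∈ univ.erase l, (g l + g j) = 2 * ((Fintype.card J : ℝ) - 1) * ∑ l, g l := by
  have h : ∀ l, ∑ j ∈ univ.erase l, (g l + g j) =
      ((Fintype.card J : ℝ) - 1) * g l + (∑ j, g j - g l) := by
    intro l
    rw [Finset.sum_add_distrib, Finset.sum_const, Finset.card_erase_of_mem (mem_univ l),
      Finset.card_univ, nsmul_eq_mul, Finset.sum_erase_eq_sub (mem_univ l),
      Nat.cast_sub (Fintype.card_pos_iff.mpr ⟨l⟩), Nat.cast_one]
  rw [Finset.sum_congr rfl fun l _ => h l, Finset.sum_add_distrib, ← Finset.mul_sum,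
    Finset.sum_sub_distrib, Finset.sum_const, Finset.card_univ, nsmul_eq_mul]
  ring

theorem sum_const_pair {J : Type*} [Fintype J] [DecidableEq J] (c : ℝ) :
    ∑ l : J, ∑ j ∈ univ.erase l, c = (Fintype.card J : ℝ) * ((Fintype.card J : ℝ) - 1) * c := by
  have h : ∀ l : J, ∑ j ∈ univ.erase l, c = ((Fintype.card J : ℝ) - 1) * c := by
    intro l
    rw [Finset.sum_const, Finset.card_erase_of_mem (mem_univ l),
      Finset.card_univ, nsmul_eq_mul,
      Nat.cast_sub (Fintype.card_pos_iff.mpr ⟨l⟩), Nat.cast_one]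
  rw [Finset.sum_congr rfl fun l _ => h l, Finset.sum_const, Finset.card_univ, nsmul_eq_mul]
  ring

theorem UZ {Λ : Type u} [NormedField Λ] {J : Type*} [Fintype J] [DecidableEq J] (m : Mb Λ)
    (hm : m.det ≠ 0) (x : J → Λ) (hx : Function.Injective x) (hd : ∀ l, m.den (x l) ≠ 0) :
    (∑ l, ∑ j ∈ univ.erase l, -Real.log ‖x l - x j‖) -
      ∑ l, ∑ j ∈ univ.erase l, -Real.log ‖m.app (x l) - m.app (x j)‖ =
      (Fintype.card J : ℝ) * ((Fintype.card J : ℝ) - 1) * Real.log ‖m.det‖ -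
        2 * ((Fintype.card J : ℝ) - 1) * ∑ l, Real.log ‖m.den (x l)‖ := by
  rw [← sum_const_pair, ← sum_pair, ← Finset.sum_sub_distrib, ← Finset.sum_sub_distrib]
  refine Finset.sum_congr rfl fun l _ => ?_
  rw [← Finset.sum_sub_distrib, ← Finset.sum_sub_distrib]
  refine Finset.sum_congr rfl fun j hj => ?_
  have hne : j ≠ l := (Finset.mem_erase.mp hj).1
  have hxx : x l - x j ≠ 0 := by
    rw [sub_ne_zero]
    intro h
    exact hne (hx h).symm
  rw [app_sub m _ _ (hd l) (hd j), norm_div, norm_mul, norm_mul, Real.log_div, Real.log_mul,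
    Real.log_mul]
  · ring
  · exact norm_ne_zero_iff.mpr (hd l)
  · exact norm_ne_zero_iff.mpr (hd j)
  · exact norm_ne_zero_iff.mpr hm
  · exact norm_ne_zero_iff.mpr hxx
  · exact mul_ne_zero (norm_ne_zero_iff.mpr hm) (norm_ne_zero_iff.mpr hxx)
  · exact mul_ne_zero (norm_ne_zero_iff.mpr (hd l)) (norm_ne_zero_iff.mpr (hd j))

theorem key (A B : ℝ) (D : ℝ) (hD : 0 < D) {J : Type*} [Fintype J] (g : J → ℝ)
    (hg : ∀ l, 0 < g l) (n c : ℕ) (a' N : ℝ) (hN : N - 1 ≠ 0)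
    (hn : (n : ℝ) = a' * N / 2) (hc : (c : ℝ) = a')
    (h : A * ∏ l, g l ^ c = D ^ n * B) :
    B = Real.exp (-(a' / (2 * (N - 1)) * (N * (N - 1) * Real.log D -
      2 * (N - 1) * ∑ l, Real.log (g l)))) * A := by
  have h1 : -(a' / (2 * (N - 1)) * (N * (N - 1) * Real.log D -
      2 * (N - 1) * ∑ l, Real.log (g l))) = -((n : ℝ) * Real.log D) +
      ∑ l, (c : ℝ) * Real.log (g l) := by
    rw [hn, hc, ← Finset.mul_sum]
    field_simp
    ring
  rw [h1, Real.exp_add, Real.exp_neg, Real.exp_nat_mul, Real.exp_log hD, Real.exp_sum]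
  have h2 : ∏ l, Real.exp ((c : ℝ) * Real.log (g l)) = ∏ l, g l ^ c := by
    refine Finset.prod_congr rfl fun l _ => ?_
    rw [Real.exp_nat_mul, Real.exp_log (hg l)]
  rw [h2]
  have h3 : D ^ n ≠ 0 := (pow_pos hD n).ne'
  rw [mul_assoc, mul_comm _ A, h]
  field_simp

theorem covn (hcov : S_cov.{u}) : S_covn.{u} := by
  intro Λ _ a b hab m hm x y hx hd
  have hN : (Fintype.card (II a b) : ℝ) = ((a : ℝ) + 1) * (b + 1) := by
    simp [II]
  have hN1 : ((a : ℝ) + 1) * (b + 1) - 1 ≠ 0 := by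
    have ha : (0 : ℝ) ≤ a := Nat.cast_nonneg a
    have hb : (0 : ℝ) ≤ b := Nat.cast_nonneg b
    have hab' : (1 : ℝ) ≤ a + b := by exact_mod_cast hab
    have := mul_nonneg ha hb
    nlinarith
  have hD : 0 < ‖m.det‖ := norm_pos_iff.mpr hm
  have hg : ∀ l, 0 < ‖m.den (x l)‖ := fun l => norm_pos_iff.mpr (hd l)
  obtain ⟨h1, h2⟩ := hcov Λ a b m x y hd
  have h1' := congrArg norm h1
  have h2' := congrArg norm h2
  rw [norm_mul, norm_mul, norm_pow, norm_prod] at h1' h2'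
  simp only [norm_pow] at h1' h2'
  have hev : ∀ c : ℕ, ((c * (c + 1) / 2 : ℕ) : ℝ) = (c : ℝ) * (c + 1) / 2 := by
    intro c
    have h3 : 2 ∣ c * (c + 1) := (Nat.even_mul_succ_self c).two_dvd
    rw [Nat.cast_div h3 (by norm_num)]
    push_cast
    ring
  rw [UZ m hm x hx hd, hN]
  constructor
  · refine key _ _ _ hD (fun l => ‖m.den (x l)‖) hg ((b + 1) * (a * (a + 1) / 2)) a a _ hN1 ?_ rfl h1'
    rw [Nat.cast_mul, hev]
    push_cast
    ring
  · refine key _ _ _ hD (fun l => ‖m.den (x l)‖) hg ((a + 1) * (b * (b + 1) / 2)) b b _ hN1 ?_ rfl h2'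
    rw [Nat.cast_mul, hev]
    push_cast
    ring

end Pool.Agent.Q65.SU
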