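import Pool.Agent.Q41.SU.Stm2

set_option autoImplicit false
set_option linter.all false

namespace Pool.Agent.Q65.SU

open Finset Polynomial
open Pool.Agent.Q41.SU

universe u

theorem sum_ge_range (n : ℕ) : ∀ S : Finset ℕ, S.card = n → ∑ i ∈ range n, i ≤ ∑ x ∈ S, x := by
  induction n with
  | zero => intro S _; simp
  | succ n ih =>
    intro S hS
    have hne : S.Nonempty := by
      rw [← Finset.card_pos, hS]; omega
    set M := S.max' hne with hM
    have hMS : M ∈ S := S.max'_mem hne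
    have h1 : (S.erase M).card = n := by
      rw [Finset.card_erase_of_mem hMS, hS]; omega
    have h2 := ih _ h1
    have h3 : n ≤ M := by
      have h4 : S ⊆ range (M + 1) := by
        intro x hx
        rw [Finset.mem_range]
        have := S.le_max' x hx
        omega
      have h5 := Finset.card_le_card h4
      rw [Finset.card_range, hS] at h5
      omega
    rw [Finset.sum_range_succ, ← Finset.sum_erase_add _ _ hMS]
    omega

theorem phi_swap (a b n : ℕ) : phi 0 1 a b n = phi 1 0 b a n := by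
  unfold phi
  congr 1
  ext m
  constructor
  · rintro ⟨T, hT, hm⟩
    refine ⟨T.map (Equiv.prodComm _ _).toEmbedding, by rw [Finset.card_map]; exact hT, ?_⟩
    rw [hm, Finset.sum_map]
    refine Finset.sum_congr rfl fun x _ => ?_
    simp
  · rintro ⟨T, hT, hm⟩
    refine ⟨T.map (Equiv.prodComm _ _).toEmbedding, by rw [Finset.card_map]; exact hT, ?_⟩
    rw [hm, Finset.sum_map]
    refine Finset.sum_congr rfl fun x _ => ?_
    simp

theorem phi_ne (w₁ w₂ a b n : ℕ) (hn : n ≤ (a + 1) * (b + 1)) :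
    {m : ℕ | ∃ T : Finset (II a b), T.card = n ∧
      m = ∑ x ∈ T, (w₁ * (x.1 : ℕ) + w₂ * (x.2 : ℕ))}.Nonempty := by
  have hc : n ≤ (univ : Finset (II a b)).card := by
    rw [Finset.card_univ]
    simp [II]
    exact hn
  obtain ⟨T, _, hT⟩ := Finset.exists_subset_card_eq hc
  exact ⟨_, T, hT, rfl⟩

theorem sum_range_real (n : ℕ) : (∑ i ∈ range n, (i : ℝ)) = n * (n - 1) / 2 := by
  induction n with
  | zero => simp
  | succ n ih => rw [Finset.sum_range_succ, ih]; push_cast; ring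

theorem phi_upper (a b n : ℕ) (hn : n ≤ (a + 1) * (b + 1)) :
    (phi 1 0 a b n : ℝ) ≤ n * (n - 1) / (2 * (b + 1)) := by
  set f : II a b → ℕ := fun x => (x.2 : ℕ) + (b + 1) * (x.1 : ℕ) with hf
  have hfe : ∀ x : II a b, ((finProdFinEquiv x : Fin ((a + 1) * (b + 1))) : ℕ) = f x := fun x => rfl
  set T : Finset (II a b) := univ.filter fun x => f x < n with hT
  have hbij : T.image f = range n := by
    ext i
    rw [Finset.mem_image, Finset.mem_range]
    constructor
    · rintro ⟨x, hx, rfl⟩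
      exact (Finset.mem_filter.mp hx).2
    · intro hi
      have hi2 : i < (a + 1) * (b + 1) := lt_of_lt_of_le hi hn
      refine ⟨finProdFinEquiv.symm ⟨i, hi2⟩, ?_, ?_⟩
      · rw [hT, Finset.mem_filter, ← hfe]
        refine ⟨mem_univ _, ?_⟩
        rw [Equiv.apply_symm_apply]
        exact hi
      · rw [← hfe, Equiv.apply_symm_apply]
  have hinj : Function.Injective f := by
    intro x y hxy
    apply finProdFinEquiv.injective
    apply Fin.ext
    rw [hfe, hfe]
    exact hxy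
  have hcard : T.card = n := by
    rw [← Finset.card_image_of_injective T hinj, hbij, Finset.card_range]
  have h1 : phi 1 0 a b n ≤ ∑ x ∈ T, (1 * (x.1 : ℕ) + 0 * (x.2 : ℕ)) :=
    Nat.sInf_le ⟨T, hcard, rfl⟩
  have hb : (0 : ℝ) < (b : ℝ) + 1 := by positivity
  have h2 : ((b : ℝ) + 1) * ((∑ x ∈ T, (1 * (x.1 : ℕ) + 0 * (x.2 : ℕ)) : ℕ) : ℝ) ≤
      ∑ x ∈ T, (f x : ℝ) := by
    push_cast
    rw [Finset.mul_sum]
    refine Finset.sum_le_sum fun x _ => ?_
    simp only [hf]
    push_cast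
    have : (0 : ℝ) ≤ (x.2 : ℕ) := Nat.cast_nonneg _
    linarith
  have h3 : ∑ x ∈ T, (f x : ℝ) = n * (n - 1) / 2 := by
    rw [← sum_range_real, ← hbij, Finset.sum_image (fun x _ y _ h => hinj h)]
  rw [h3] at h2
  have h4 : (phi 1 0 a b n : ℝ) ≤ ((∑ x ∈ T, (1 * (x.1 : ℕ) + 0 * (x.2 : ℕ)) : ℕ) : ℝ) := by
    exact_mod_cast h1
  refine h4.trans ?_
  rw [le_div_iff₀ (by positivity)]
  linarith

theorem phi_lower (a b n : ℕ) (hn : n ≤ (a + 1) * (b + 1)) :
    (n : ℝ) * (n - 1) / (2 * (b + 1)) - n ≤ phi 1 0 a b n := by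
  obtain ⟨T, hT, hm⟩ := Nat.sInf_mem (phi_ne 1 0 a b n hn)
  have hphi : phi 1 0 a b n = ∑ x ∈ T, (1 * (x.1 : ℕ) + 0 * (x.2 : ℕ)) := hm
  set f : II a b → ℕ := fun x => (x.2 : ℕ) + (b + 1) * (x.1 : ℕ) with hf
  have hfe : ∀ x : II a b, ((finProdFinEquiv x : Fin ((a + 1) * (b + 1))) : ℕ) = f x := fun x => rfl
  have hinj : Function.Injective f := by
    intro x y hxy
    apply finProdFinEquiv.injective
    apply Fin.ext
    rw [hfe, hfe]
    exact hxy
  have h1 := sum_ge_range n (T.image f) (by rw [Finset.card_image_of_injective T hinj, hT])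
  rw [Finset.sum_image (fun x _ y _ h => hinj h)] at h1
  have h2 : (n : ℝ) * (n - 1) / 2 ≤ ∑ x ∈ T, (f x : ℝ) := by
    rw [← sum_range_real]
    have h1' : ((∑ i ∈ range n, i : ℕ) : ℝ) ≤ ((∑ x ∈ T, f x : ℕ) : ℝ) := Nat.cast_le.mpr h1
    rw [Nat.cast_sum, Nat.cast_sum] at h1'
    exact h1'
  have h3 : ∑ x ∈ T, (f x : ℝ) ≤ ((b : ℝ) + 1) * (phi 1 0 a b n : ℝ) + n * b := by
    rw [hphi]
    push_cast
    rw [Finset.mul_sum]
    have h4 : (n : ℝ) * b = ∑ x ∈ T, (b : ℝ) := by
      rw [Finset.sum_const, hT, nsmul_eq_mul]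
    rw [h4, ← Finset.sum_add_distrib]
    refine Finset.sum_le_sum fun x _ => ?_
    simp only [hf]
    push_cast
    have : ((x.2 : ℕ) : ℝ) ≤ b := by
      have := x.2.2
      exact_mod_cast (by omega : (x.2 : ℕ) ≤ b)
    linarith
  have hb : (0 : ℝ) < (b : ℝ) + 1 := by positivity
  have hn0 : (0 : ℝ) ≤ n := Nat.cast_nonneg n
  rw [sub_le_iff_le_add, div_le_iff₀ (by positivity)]
  nlinarith

theorem s_phi : S_phi := by
  intro a b n hn
  refine ⟨phi_upper a b n hn, phi_lower a b n hn, ?_, ?_⟩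
  · rw [phi_swap]
    exact phi_upper b a n (by rw [mul_comm]; exact hn)
  · rw [phi_swap]
    exact phi_lower b a n (by rw [mul_comm]; exact hn)

end Pool.Agent.Q65.SU
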