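import Pool.Agent.Q41.SU.Stm2
import Pool.Agent.Q41.SU.Stm3

set_option autoImplicit false
set_option linter.all false

namespace Pool.Agent.Q65.SU

open Finset Polynomial
open Pool.Agent.Q41.SU

universe u

theorem lsq : S_lsq := by
  intro J _ _ M o ho
  have hcnt : ∀ (i : ℕ) (l : J), (cnt o i l : ℝ) =
      1 + ∑ m ∈ univ.erase l, (if (i : ℤ) ≤ o l m then (1 : ℝ) else 0) := by
    intro i l
    unfold cnt
    rw [Finset.card_filter]
    push_cast
    rw [← Finset.add_sum_erase _ _ (mem_univ l)]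
    rw [if_pos (Or.inl rfl)]
    congr 1
    refine Finset.sum_congr rfl fun m hm => ?_
    have hne : m ≠ l := (Finset.mem_erase.mp hm).1
    simp only [hne, false_or]
  have hterm : ∀ (i : ℕ) (l : J), ((cnt o i l : ℝ) * ((cnt o i l : ℝ) - 1)) / (cnt o i l : ℝ) =
      ∑ m ∈ univ.erase l, (if (i : ℤ) ≤ o l m then (1 : ℝ) else 0) := by
    intro i l
    have h1 := hcnt i l
    have h2 : 0 ≤ ∑ m ∈ univ.erase l, (if (i : ℤ) ≤ o l m then (1 : ℝ) else 0) :=
      Finset.sum_nonneg fun m _ => by split_ifs <;> norm_num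
    have h3 : (cnt o i l : ℝ) ≠ 0 := by rw [h1]; positivity
    rw [mul_div_assoc, mul_comm, div_mul_cancel₀ _ h3, h1]
    ring
  unfold LS
  simp only [hterm]
  rw [Finset.sum_comm]
  refine Finset.sum_congr rfl fun l _ => ?_
  rw [Finset.sum_comm]
  refine Finset.sum_congr rfl fun m hm => ?_
  have hne : l ≠ m := fun h => (Finset.mem_erase.mp hm).1 h.symm
  obtain ⟨h0, h1⟩ := ho l m hne
  obtain ⟨r, hr⟩ := Int.eq_ofNat_of_zero_le h0
  rw [hr] at h1 ⊢
  have hrM : r ≤ M := by exact_mod_cast h1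
  have h4 : ∀ i ∈ Finset.Icc 1 M, (if ((i : ℕ) : ℤ) ≤ (r : ℤ) then (1 : ℝ) else 0) =
      if i ≤ r then 1 else 0 := by
    intro i _
    simp only [Nat.cast_le]
  rw [Finset.sum_congr rfl h4, ← Finset.sum_filter]
  have h5 : (Finset.Icc 1 M).filter (fun i => i ≤ r) = Finset.Icc 1 r := by
    ext i
    simp only [Finset.mem_filter, Finset.mem_Icc]
    omega
  rw [h5, Finset.sum_const, Nat.card_Icc]
  simp

theorem npol : S_npol := by
  intro k Λ _ _ _ _ s hs P v
  have hn : ‖s‖ = Real.exp (-1) := hs.norm_s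
  have hs1 : ‖s‖ < 1 := by rw [hn]; exact Real.exp_lt_one_iff.mpr (by norm_num)
  have hpow : ∀ m : ℕ, ‖s‖ ^ m = Real.exp (-(m : ℝ)) := by
    intro m
    rw [hn, ← Real.exp_nat_mul]
    congr 1; ring
  have hle : ∀ Q : k[X], ‖aeval s Q‖ ≤ 1 := by
    intro Q
    rw [aeval_eq_sum_range]
    apply IsUltrametricDist.norm_sum_le_of_forall_le_of_nonneg zero_le_one
    intro i _
    rw [Algebra.smul_def, norm_mul, norm_pow]
    by_cases hc : Q.coeff i = 0
    · rw [hc, map_zero, norm_zero, zero_mul]; exact zero_le_one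
    · rw [hs.norm_c _ hc, one_mul]
      exact pow_le_one₀ (norm_nonneg _) hs1.le
  constructor
  · rintro ⟨Q, hQ⟩
    rw [hQ, map_mul, map_pow, aeval_X, norm_mul, norm_pow, hpow]
    calc Real.exp (-(v : ℝ)) * ‖aeval s Q‖ ≤ Real.exp (-(v : ℝ)) * 1 :=
          mul_le_mul_of_nonneg_left (hle Q) (Real.exp_pos _).le
      _ = _ := mul_one _
  · intro h
    by_cases hP : P = 0
    · rw [hP]; exact dvd_zero _
    obtain ⟨Q, hQ, hndvd⟩ := exists_eq_pow_rootMultiplicity_mul_and_not_dvd P hP 0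
    rw [C_0, sub_zero] at hQ hndvd
    set m := rootMultiplicity 0 P with hm
    have hQ0 : Q.coeff 0 ≠ 0 := by
      intro h0
      exact hndvd (X_dvd_iff.mpr h0)
    have hdec : Q = C (Q.coeff 0) + X * Q.divX := by
      conv_lhs => rw [← X_mul_divX_add Q]
      ring
    have h1 : ‖aeval s Q‖ = 1 := by
      rw [hdec, map_add, map_mul, aeval_X, aeval_C]
      have h2 : ‖s * aeval s Q.divX‖ < ‖algebraMap k Λ (Q.coeff 0)‖ := by
        rw [hs.norm_c _ hQ0, norm_mul]
        calc ‖s‖ * ‖aeval s Q.divX‖ ≤ ‖s‖ * 1 :=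
              mul_le_mul_of_nonneg_left (hle _) (norm_nonneg _)
          _ < 1 := by rw [mul_one]; exact hs1
      have h3 := IsUltrametricDist.norm_add_eq_max_of_norm_ne_norm h2.ne'
      rw [h3, max_eq_left h2.le, hs.norm_c _ hQ0]
    rw [hQ, map_mul, map_pow, aeval_X, norm_mul, norm_pow, hpow, h1, mul_one,
      Real.exp_le_exp, neg_le_neg_iff, Nat.cast_le] at h
    rw [hQ]
    exact (pow_dvd_pow X h).mul_right Q

theorem ev_mul {k : Type*} [CommRing k] {A : Type*} [CommRing A] [Algebra k A]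
    (F G : k[X][X]) (x y : A) : ev (F * G) x y = ev F x y * ev G x y := by
  unfold ev
  exact eval₂_mul _ _

theorem ev_dvd_root {k : Type*} [Field k] (F : k[X][X]) (x0 y0 : k)
    (h : X ∣ ev F (C x0 + X) (C y0 + X)) : (F.map (evalRingHom x0)).eval y0 = 0 := by
  rw [X_dvd_iff, coeff_zero_eq_eval_zero] at h
  unfold ev at h
  have h1 : eval 0 (eval₂ ((aeval (C x0 + X : k[X]) : k[X] →ₐ[k] k[X]) : k[X] →+* k[X])
      (C y0 + X) F) = eval₂ ((evalRingHom (0 : k)).comp
        ((aeval (C x0 + X : k[X]) : k[X] →ₐ[k] k[X]) : k[X] →+* k[X])) (eval 0 (C y0 + X)) F := by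
    have := hom_eval₂ F ((aeval (C x0 + X : k[X]) : k[X] →ₐ[k] k[X]) : k[X] →+* k[X])
      (evalRingHom (0 : k)) (C y0 + X)
    simpa using this
  rw [h1] at h
  have h2 : (evalRingHom (0 : k)).comp
        ((aeval (C x0 + X : k[X]) : k[X] →ₐ[k] k[X]) : k[X] →+* k[X]) = evalRingHom x0 := by
    apply Polynomial.ringHom_ext
    · intro c
      simp
    · simp
  rw [h2] at h
  rw [eval_map]
  simpa using h

theorem ev_1 {k : Type u} [Field k] (t₀ : k) (v : ℕ) : ∀ F : k[X][X],
    {c' : k | X ^ v ∣ ev F (C t₀ + X) (C c' + X)}.Infinite → C ((X - C t₀) ^ v) ∣ F := by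
  induction v with
  | zero => intro F _; simp
  | succ v ih =>
    intro F hF
    have h0 : F.map (evalRingHom t₀) = 0 := by
      apply eq_zero_of_infinite_isRoot
      refine hF.mono fun c' hc' => ?_
      have : X ∣ ev F (C t₀ + X) (C c' + X) :=
        (dvd_pow_self X (Nat.succ_ne_zero v)).trans hc'
      exact ev_dvd_root F t₀ c' this
    have h1 : C (X - C t₀) ∣ F := by
      rw [C_dvd_iff_dvd_coeff]
      intro i
      rw [dvd_iff_isRoot, IsRoot]
      have := congrArg (fun G => coeff G i) h0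
      simpa [coeff_map] using this
    obtain ⟨F', rfl⟩ := h1
    have h2 : ∀ c' : k, ev (C (X - C t₀) * F') (C t₀ + X) (C c' + X) =
        X * ev F' (C t₀ + X) (C c' + X) := by
      intro c'
      rw [ev_mul]
      congr 1
      unfold ev
      rw [eval₂_C]
      simp
    have h3 : C ((X - C t₀) ^ v) ∣ F' := by
      apply ih
      refine hF.mono fun c' hc' => ?_
      have hc2 : X ^ (v + 1) ∣ ev (C (X - C t₀) * F') (C t₀ + X) (C c' + X) := hc'
      rw [h2, pow_succ'] at hc2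
      exact (mul_dvd_mul_iff_left X_ne_zero).mp hc2
    rw [pow_succ', C_mul]
    exact mul_dvd_mul_left _ h3

theorem ev_2 {k : Type u} [Field k] (t₀ : k) (v : ℕ) : ∀ F : k[X][X],
    {c' : k | X ^ v ∣ ev F (C c' + X) (C t₀ + X)}.Infinite → (X - C (C t₀)) ^ v ∣ F := by
  induction v with
  | zero => intro F _; simp
  | succ v ih =>
    intro F hF
    have h0 : F.eval (C t₀) = 0 := by
      apply eq_zero_of_infinite_isRoot
      refine hF.mono fun c' hc' => ?_
      have h1 : X ∣ ev F (C c' + X) (C t₀ + X) :=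
        (dvd_pow_self X (Nat.succ_ne_zero v)).trans hc'
      have h2 := ev_dvd_root F c' t₀ h1
      show eval c' (F.eval (C t₀)) = 0
      rw [eval_map] at h2
      have h3 := hom_eval₂ F (RingHom.id _) (evalRingHom c') (C t₀)
      simp only [RingHom.comp_id, coe_evalRingHom, eval_C] at h3
      rw [eval₂_id] at h3
      rw [h3]
      exact h2
    have h1 : (X - C (C t₀)) ∣ F := dvd_iff_isRoot.mpr h0
    obtain ⟨F', rfl⟩ := h1
    have h2 : ∀ c' : k, ev ((X - C (C t₀)) * F') (C c' + X) (C t₀ + X) =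
        X * ev F' (C c' + X) (C t₀ + X) := by
      intro c'
      rw [ev_mul]
      congr 1
      unfold ev
      rw [eval₂_sub, eval₂_X, eval₂_C]
      simp
    have h3 : (X - C (C t₀)) ^ v ∣ F' := by
      apply ih
      refine hF.mono fun c' hc' => ?_
      have hc2 : X ^ (v + 1) ∣ ev ((X - C (C t₀)) * F') (C c' + X) (C t₀ + X) := hc'
      rw [h2, pow_succ'] at hc2
      exact (mul_dvd_mul_iff_left X_ne_zero).mp hc2
    rw [pow_succ']
    exact mul_dvd_mul_left _ h3

theorem s_ev : S_ev := fun k _ F t₀ v => ⟨ev_1 t₀ v F, ev_2 t₀ v F⟩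

end Pool.Agent.Q65.SU
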